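import Pool.Agent.BOG.Stmts

/-! Row KSD of squad BOG: the theorem over `K`. -/

set_option autoImplicit false

namespace Pool.Agent.BOG.H92

open Polynomial Finset

universe v

theorem ksd (hSEQ : SeqStmt) (hEDA : EdaStmt.{v}) (hEDB : EdbStmt.{v}) (hGPA : GpaStmt.{v})
    (hGPB : GpbStmt.{v}) (hLDF : LdfStmt.{v}) (hLOW : LowStmt.{v}) (hPTS : PtsStmt.{v})
    (hINC : IncStmt.{v}) (hRKW : RkwStmt.{v}) (hSUM : SumStmt.{v}) (hNUM : NumStmt) :
    KsdStmt.{v} := by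
  intro K _ n k w m c hm hk h3k hw hq hHk hC
  obtain ⟨E1, E2, E3⟩ := hEDA K n m c (2 * w)
  obtain ⟨a1, a2, a3, h12, h23, hs, hH⟩ := hSEQ
    (fun j => Module.finrank K (EE m c (2 * w) j)) (n * (2 * w)) E1 E2 E3
    (fun j hj => hEDB K n m c (2 * w) hm j hj)
  have hq' : ∀ q : ℕ, 0 < q → 3 * q ≤ 2 * (n * (2 * w)) → (q : K) ≠ 0 := by
    intro q h0 h1
    refine hq q h0 (h1.trans (le_of_eq ?_))
    ring
  have gA := hGPA K n k m c (2 * w) a1 a2 a3 hm hk h3k (by omega) h12 h23 hs hH hq'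
    (hRKW K n k m c hm hHk hC)
  have gB := hGPB K n m c (2 * w) a1 a2 a3 hm (by omega) (by omega) h12 h23 hs hH hq'
  obtain ⟨S, S1, S2, S3⟩ := hPTS K n m c hm
  obtain ⟨I1, I2, I3⟩ := hINC K n k m c S hm hHk S1
  obtain ⟨d, hd⟩ : ∃ d, d = a3 + 2 * w + ∑ Y ∈ S, w * rr m c Y := ⟨_, rfl⟩
  have hda : a3 ≤ d := by omega
  have hdd : ∀ P, ∀ i < 2 * w, i + ∑ Y ∈ onP m c S P, (w * rr m c Y - i) ≤ d := by
    intro P i hi
    have h1 : ∑ Y ∈ onP m c S P, (w * rr m c Y - i) ≤ ∑ Y ∈ S, w * rr m c Y :=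
      (Finset.sum_le_sum fun Y _ => Nat.sub_le _ _).trans
        (Finset.sum_le_sum_of_subset (by
          intro Y hY
          classical
          unfold onP at hY
          exact (Finset.mem_filter.1 hY).1))
    omega
  have hL : ∀ e, Module.finrank K (MM m c (2 * w) e) ≤
      ∑ j ∈ range e, Module.finrank K (EE m c (2 * w) (j + 1)) := by
    intro e
    induction e with
    | zero => rw [(hLDF K n m c (2 * w)).1]; exact Nat.zero_le _
    | succ e ih =>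
      rw [Finset.sum_range_succ]
      exact ((hLDF K n m c (2 * w)).2 e).trans (Nat.add_le_add_right ih _)
  have hlow := hLOW K n m c (2 * w) d S (fun Y => w * rr m c Y) hdd
  have hsum := hSUM K n m c w d S S1 hdd
  have hR : ∑ Y ∈ S, rr m c Y ^ 2 = ∑ Y ∈ S, rr m c Y + n * (n - 1) := by
    rw [← S3, ← Finset.sum_add_distrib]
    refine Finset.sum_congr rfl fun Y hY => ?_
    obtain ⟨r, hr⟩ : ∃ r, rr m c Y = r + 1 := ⟨rr m c Y - 1, by have := S1 Y hY; omega⟩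
    rw [hr, Nat.add_sub_cancel]
    ring
  refine hNUM n k w a1 a2 a3 d (∑ Y ∈ S, rr m c Y) (∑ Y ∈ S, rr m c Y ^ 2) (by omega) h12 h23 hda
    hs gA gB hR I3 ?_
  have hA : Module.finrank K (MM m c (2 * w) d) ≤
      ∑ j ∈ range d, ((j + 1 - a1) + (j + 1 - a2) + (j + 1 - a3)) := by
    refine (hL d).trans (le_of_eq (Finset.sum_congr rfl fun j _ => ?_))
    exact hH (j + 1)
  have hJ : ∑ Y ∈ S, w * rr m c Y * (w * rr m c Y + 1) =
      w ^ 2 * ∑ Y ∈ S, rr m c Y ^ 2 + w * ∑ Y ∈ S, rr m c Y := by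
    rw [Finset.mul_sum, Finset.mul_sum, ← Finset.sum_add_distrib]
    refine Finset.sum_congr rfl fun Y _ => ?_
    ring
  have hB : ∑ Y ∈ S, (rr m c Y : ℤ) * (2 * w ^ 2 * rr m c Y - w * (2 * w - 1)) =
      2 * w ^ 2 * ((∑ Y ∈ S, rr m c Y ^ 2 : ℕ) : ℤ) -
        w * (2 * w - 1) * ((∑ Y ∈ S, rr m c Y : ℕ) : ℤ) := by
    push_cast
    rw [Finset.mul_sum, Finset.mul_sum, ← Finset.sum_sub_distrib]
    refine Finset.sum_congr rfl fun Y _ => ?_
    ring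
  rw [hB] at hsum
  rw [← hsum]
  have h1 : 3 * (d + 1).choose 2 ≤
      ∑ j ∈ range d, ((j + 1 - a1) + (j + 1 - a2) + (j + 1 - a3)) +
      (w ^ 2 * ∑ Y ∈ S, rr m c Y ^ 2 + w * ∑ Y ∈ S, rr m c Y) +
      ∑ P : Fin n, ∑ i ∈ range (2 * w), (d - i - ∑ Y ∈ onP m c S P, (w * rr m c Y - i)) := by
    rw [← hJ]
    exact hlow.trans (Nat.add_le_add_right (Nat.add_le_add_right hA _) _)
  exact_mod_cast h1

end Pool.Agent.BOG.H92
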